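import Pool.Agent.Hhelper85.TC.Core

/-!
# The exponential bound for the generating function
-/

set_option autoImplicit false

namespace Pool.Agent.Hhelper85.TC

open Finset

attribute [local instance] Classical.propDecidable

theorem one_sub_exp_le {u w L l : ℝ} (hw0 : 0 ≤ w) (hw1 : w < 1) (hL : w ≤ Real.exp (-L))
    (hl : 1 - w ≤ Real.exp (-l)) :
    1 - Real.exp (-u) ≤ Real.exp (-l + w * (u - L) / (1 - w)) := by
  have h1 : w * (1 - u + L) ≤ Real.exp (-u) := by
    by_cases h : 0 ≤ 1 - u + L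
    · have h2 := Real.add_one_le_exp (-(u - L))
      have h3 : Real.exp (-u) = Real.exp (-L) * Real.exp (-(u - L)) := by
        rw [← Real.exp_add]; congr 1; ring
      rw [h3]
      apply mul_le_mul hL (by linarith) h (Real.exp_pos _).le
    · have : w * (1 - u + L) ≤ 0 := mul_nonpos_of_nonneg_of_nonpos hw0 (by linarith)
      exact this.trans (Real.exp_pos _).le
  have h4 : (0 : ℝ) < 1 - w := by linarith
  have h5 : 1 - Real.exp (-u) ≤ (1 - w) * (w * (u - L) / (1 - w) + 1) := by
    have : (1 - w) * (w * (u - L) / (1 - w) + 1) = w * (u - L) + (1 - w) := by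
      field_simp
    rw [this]
    linarith
  refine h5.trans ?_
  rw [Real.exp_add]
  calc (1 - w) * (w * (u - L) / (1 - w) + 1) ≤ (1 - w) * Real.exp (w * (u - L) / (1 - w)) :=
        mul_le_mul_of_nonneg_left (Real.add_one_le_exp _) h4.le
    _ ≤ _ := mul_le_mul_of_nonneg_right hl (Real.exp_pos _).le

/-- lower bound of the exponential function by its partial sums -/
theorem exp_ge (x : ℝ) (hx : 0 ≤ x) (k : ℕ) :
    ∑ i ∈ range k, x ^ i / (i.factorial : ℝ) ≤ Real.exp x := Real.sum_le_exp_of_nonneg hx k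

/-- `(1 + x)^k - 1` for `x = 7 / n` -/
theorem pow_sub_one_le {n k : ℕ} (hn : 0 < n) {w L l : ℝ} (hw0 : 0 ≤ w) (hw1 : w < 1)
    (hL : w ≤ Real.exp (-L)) (hl : 1 - w ≤ Real.exp (-l)) :
    (1 + 7 / (n : ℝ)) ^ k - 1 ≤
      Real.exp (7 * (k / n : ℝ) - l + w * (7 * (k / n : ℝ) - L) / (1 - w)) := by
  have hn' : (0 : ℝ) < n := by exact_mod_cast hn
  have h1 : (1 + 7 / (n : ℝ)) ^ k ≤ Real.exp (7 * (k / n : ℝ)) := by
    have h2 : (1 + 7 / (n : ℝ)) ≤ Real.exp (7 / (n : ℝ)) := by
      have := Real.add_one_le_exp (7 / (n : ℝ))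
      linarith
    have h3 : (1 + 7 / (n : ℝ)) ^ k ≤ Real.exp (7 / (n : ℝ)) ^ k :=
      pow_le_pow_left₀ (by positivity) h2 k
    refine h3.trans (le_of_eq ?_)
    rw [← Real.exp_nat_mul]
    congr 1
    ring
  have h2 := one_sub_exp_le (u := 7 * (k / n : ℝ)) hw0 hw1 hL hl
  calc (1 + 7 / (n : ℝ)) ^ k - 1 ≤ Real.exp (7 * (k / n : ℝ)) - 1 := by linarith
    _ = Real.exp (7 * (k / n : ℝ)) * (1 - Real.exp (-(7 * (k / n : ℝ)))) := by
        rw [mul_sub, ← Real.exp_add]
        simp
    _ ≤ Real.exp (7 * (k / n : ℝ)) *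
          Real.exp (-l + w * (7 * (k / n : ℝ) - L) / (1 - w)) :=
        mul_le_mul_of_nonneg_left h2 (Real.exp_pos _).le
    _ = _ := by
        rw [← Real.exp_add]
        congr 1
        ring

theorem w1_le : (954 / 10000 : ℝ) ≤ Real.exp (-(23496 / 10000)) := by
  rw [Real.exp_neg, le_inv_comm₀ (by norm_num) (Real.exp_pos _)]
  have h := Real.exp_bound' (x := (23496 / 40000 : ℝ)) (by norm_num) (by norm_num) (n := 8) (by norm_num)
  have h2 : Real.exp (23496 / 10000 : ℝ) = Real.exp (23496 / 40000) ^ 4 := by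
    rw [← Real.exp_nat_mul]; congr 1; norm_num
  rw [h2]
  have h3 := pow_le_pow_left₀ (Real.exp_pos _).le h 4
  refine h3.trans ?_
  norm_num [Finset.sum_range_succ, Nat.factorial]

theorem w2_le : (8 / 100 : ℝ) ≤ Real.exp (-(25257 / 10000)) := by
  rw [Real.exp_neg, le_inv_comm₀ (by norm_num) (Real.exp_pos _)]
  have h := Real.exp_bound' (x := (25257 / 40000 : ℝ)) (by norm_num) (by norm_num) (n := 8) (by norm_num)
  have h2 : Real.exp (25257 / 10000 : ℝ) = Real.exp (25257 / 40000) ^ 4 := by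
    rw [← Real.exp_nat_mul]; congr 1; norm_num
  rw [h2]
  have h3 := pow_le_pow_left₀ (Real.exp_pos _).le h 4
  refine h3.trans ?_
  norm_num [Finset.sum_range_succ, Nat.factorial]

theorem v1_le : (1 - 954 / 10000 : ℝ) ≤ Real.exp (-(1002 / 10000)) := by
  rw [Real.exp_neg, le_inv_comm₀ (by norm_num) (Real.exp_pos _)]
  have h := Real.exp_bound' (x := (1002 / 10000 : ℝ)) (by norm_num) (by norm_num) (n := 6) (by norm_num)
  refine h.trans ?_
  norm_num [Finset.sum_range_succ, Nat.factorial]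

theorem v2_le : (1 - 8 / 100 : ℝ) ≤ Real.exp (-(8338 / 100000)) := by
  rw [Real.exp_neg, le_inv_comm₀ (by norm_num) (Real.exp_pos _)]
  have h := Real.exp_bound' (x := (8338 / 100000 : ℝ)) (by norm_num) (by norm_num) (n := 6) (by norm_num)
  refine h.trans ?_
  norm_num [Finset.sum_range_succ, Nat.factorial]

theorem gibbs_le : Real.exp (-(11921 / 10000)) + Real.exp (-(10919 / 10000)) +
    Real.exp (-(10195 / 10000)) ≤ (1 : ℝ) := by
  have h : ∀ x a : ℝ, 0 ≤ x → 0 < a → 1 / a ≤ ∑ i ∈ range 10, x ^ i / (i.factorial : ℝ) →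
      Real.exp (-x) ≤ a := by
    intro x a hx ha hs
    rw [Real.exp_neg, inv_le_comm₀ (Real.exp_pos _) ha, inv_eq_one_div]
    exact hs.trans (exp_ge x hx 10)
  have h1 := h (11921 / 10000) (30359 / 100000) (by norm_num) (by norm_num)
    (by norm_num [Finset.sum_range_succ, Nat.factorial])
  have h2 := h (10919 / 10000) (33558 / 100000) (by norm_num) (by norm_num)
    (by norm_num [Finset.sum_range_succ, Nat.factorial])
  have h3 := h (10195 / 10000) (36078 / 100000) (by norm_num) (by norm_num)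
    (by norm_num [Finset.sum_range_succ, Nat.factorial])
  linarith

/-- the maximum of the quadratic majorant on the simplex -/
theorem quad_le (x y z : ℝ) (h : x + y + z = 1) :
    x * (11921 / 10000) + y * (10919 / 10000) + z * (10195 / 10000) +
      x * ((7 * y - 1002 / 10000 + (954 / 10000) * (7 * y - 23496 / 10000) / (1 - 954 / 10000)) +
        (7 * z - 8338 / 100000 + (8 / 100) * (7 * z - 25257 / 10000) / (1 - 8 / 100))) +
      y * (7 * z - 8338 / 100000 + (8 / 100) * (7 * z - 25257 / 10000) / (1 - 8 / 100)) ≤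
    33401 / 10000 := by
  have hz : z = 1 - x - y := by linarith
  subst hz
  have h1 := sq_nonneg ((x - 179210835191 / 590275000000) +
    (2223 / 4523) * (y - 198112439099 / 590275000000))
  have h2 := sq_nonneg (y - 198112439099 / 590275000000)
  have e1 : (1 - 954 / 10000 : ℝ) = 9046 / 10000 := by norm_num
  have e2 : (1 - 8 / 100 : ℝ) = 92 / 100 := by norm_num
  rw [e1, e2]
  have key : 33401 / 10000 - (x * (11921 / 10000) + y * (10919 / 10000) +
      (1 - x - y) * (10195 / 10000) +
      x * ((7 * y - 1002 / 10000 + (954 / 10000) * (7 * y - 23496 / 10000) / (9046 / 10000)) +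
        (7 * (1 - x - y) - 8338 / 100000 +
          (8 / 100) * (7 * (1 - x - y) - 25257 / 10000) / (92 / 100))) +
      y * (7 * (1 - x - y) - 8338 / 100000 +
        (8 / 100) * (7 * (1 - x - y) - 25257 / 10000) / (92 / 100))) =
      (33401 / 10000 - 453455210344170451 / 135763250000000000) +
      175 / 23 * ((x - 179210835191 / 590275000000) +
        (2223 / 4523) * (y - 198112439099 / 590275000000)) ^ 2 +
      (175 / 23 - 175 / 23 * (2223 / 4523) ^ 2) * (y - 198112439099 / 590275000000) ^ 2 := by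
    ring
  nlinarith [h1, h2, key]

end Pool.Agent.Hhelper85.TC
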