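import Mathlib

/-!
# Locally maximal 3-colourings and the generating function of 3-colourable graphs
-/

set_option autoImplicit false

namespace Pool.Agent.Hhelper85.TC

open Finset

attribute [local instance] Classical.propDecidable

/-- the neighbours of `v` with colour `j` -/
noncomputable def nb {n : ℕ} (f : Fin n → Fin 3) (G : SimpleGraph (Fin n)) (t : Fin n × Fin 3) :
    Finset (Fin n) :=
  univ.filter fun w => f w = t.2 ∧ G.Adj t.1 w

/-- the tasks of a colouring: pairs of a vertex and a larger colour -/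
def tasks {n : ℕ} (f : Fin n → Fin 3) : Finset (Fin n × Fin 3) :=
  univ.filter fun t => f t.1 < t.2

/-- the colour class `j` -/
def cls {n : ℕ} (f : Fin n → Fin 3) (j : Fin 3) : Finset (Fin n) := univ.filter fun w => f w = j

/-- `f` is a proper colouring of `G` which cannot be increased at a single vertex -/
def LM {n : ℕ} (f : Fin n → Fin 3) (G : SimpleGraph (Fin n)) : Prop :=
  (∀ u v, G.Adj u v → f u ≠ f v) ∧ ∀ t ∈ tasks f, (nb f G t).Nonempty

theorem exists_LM {n : ℕ} (G : SimpleGraph (Fin n)) (h : G.Colorable 3) : ∃ f, LM f G := by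
  obtain ⟨C⟩ := h
  have hne : (univ.filter fun f : Fin n → Fin 3 => ∀ u v, G.Adj u v → f u ≠ f v).Nonempty :=
    ⟨C, by
      rw [mem_filter]
      exact ⟨mem_univ _, fun u v huv => C.valid huv⟩⟩
  obtain ⟨f, hf, hmax⟩ := exists_max_image _ (fun f : Fin n → Fin 3 => ∑ v, (f v : ℕ)) hne
  rw [mem_filter] at hf
  refine ⟨f, hf.2, ?_⟩
  intro t ht
  rw [tasks, mem_filter] at ht
  by_contra hcon
  rw [not_nonempty_iff_eq_empty, nb, filter_eq_empty_iff] at hcon
  have hno : ∀ w, G.Adj t.1 w → f w ≠ t.2 := fun w hw e => hcon (mem_univ w) ⟨e, hw⟩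
  set g : Fin n → Fin 3 := Function.update f t.1 t.2 with hg
  have hgp : g ∈ univ.filter fun f : Fin n → Fin 3 => ∀ u v, G.Adj u v → f u ≠ f v := by
    rw [mem_filter]
    refine ⟨mem_univ _, ?_⟩
    intro u v huv
    have hne := huv.ne
    by_cases hu : u = t.1
    · subst hu
      rw [hg, Function.update_self, Function.update_of_ne hne.symm]
      exact (hno v huv).symm
    · by_cases hv : v = t.1
      · subst hv
        rw [hg, Function.update_self, Function.update_of_ne hne]
        exact hno u huv.symm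
      · rw [hg, Function.update_of_ne hu, Function.update_of_ne hv]
        exact hf.2 u v huv
  have h1 := hmax g hgp
  have h2 : ∑ v, (f v : ℕ) < ∑ v, (g v : ℕ) := by
    apply sum_lt_sum
    · intro v _
      by_cases hv : v = t.1
      · subst hv
        rw [hg, Function.update_self]
        exact le_of_lt ht.2
      · rw [hg, Function.update_of_ne hv]
    · refine ⟨t.1, mem_univ _, ?_⟩
      rw [hg, Function.update_self]
      exact ht.2
  omega

theorem nb_inj {n : ℕ} (f : Fin n → Fin 3) {G H : SimpleGraph (Fin n)}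
    (hG : ∀ u v, G.Adj u v → f u ≠ f v) (hH : ∀ u v, H.Adj u v → f u ≠ f v)
    (h : ∀ t ∈ tasks f, nb f G t = nb f H t) : G = H := by
  have key : ∀ {G H : SimpleGraph (Fin n)}, (∀ u v, G.Adj u v → f u ≠ f v) →
      (∀ t ∈ tasks f, nb f G t = nb f H t) → ∀ u v, G.Adj u v → H.Adj u v := by
    intro G H hG h u v huv
    rcases lt_or_gt_of_ne (hG u v huv) with hlt | hgt
    · have h1 : v ∈ nb f G (u, f v) := by
        rw [nb, mem_filter]; exact ⟨mem_univ _, rfl, huv⟩
      rw [h (u, f v) (by rw [tasks, mem_filter]; exact ⟨mem_univ _, hlt⟩), nb, mem_filter] at h1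
      exact h1.2.2
    · have h1 : u ∈ nb f G (v, f u) := by
        rw [nb, mem_filter]; exact ⟨mem_univ _, rfl, huv.symm⟩
      rw [h (v, f u) (by rw [tasks, mem_filter]; exact ⟨mem_univ _, hgt⟩), nb, mem_filter] at h1
      exact h1.2.2.symm
  ext u v
  exact ⟨key hG h u v, key hH (fun t ht => (h t ht).symm) u v⟩

theorem sum_nb_le {n : ℕ} (f : Fin n → Fin 3) (G : SimpleGraph (Fin n)) :
    ∑ t ∈ tasks f, (nb f G t).card ≤ G.edgeFinset.card := by
  rw [← card_sigma]
  apply card_le_card_of_injOn (fun q : (_ : Fin n × Fin 3) × Fin n => s(q.1.1, q.2))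
  · rintro ⟨t, w⟩ hq
    simp only [coe_sigma, Set.mem_sigma_iff, mem_coe] at hq
    have h2 := hq.2
    rw [nb, mem_filter] at h2
    simp only [mem_coe, SimpleGraph.mem_edgeFinset, SimpleGraph.mem_edgeSet]
    exact h2.2.2
  · rintro ⟨t, w⟩ hq ⟨t', w'⟩ hq' he
    simp only [coe_sigma, Set.mem_sigma_iff, mem_coe] at hq hq'
    obtain ⟨ht, hw⟩ := hq
    obtain ⟨ht', hw'⟩ := hq'
    rw [nb, mem_filter] at hw hw'
    rw [tasks, mem_filter] at ht ht'
    simp only [Sym2.eq_iff] at he
    have e1 : t.2 = f w := hw.2.1.symm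
    have e2 : t'.2 = f w' := hw'.2.1.symm
    rcases he with ⟨ha, hb⟩ | ⟨ha, hb⟩
    · subst hb
      have : t = t' := Prod.ext ha (by rw [e1, e2])
      subst this
      rfl
    · exfalso
      have h1 := ht.2
      have h2 := ht'.2
      rw [e1] at h1
      rw [e2] at h2
      rw [ha, hb] at h1
      exact absurd h1 (not_lt.2 h2.le)

theorem sum_nonempty_pow {α : Type} [DecidableEq α] (s : Finset α) (x : ℝ) :
    ∑ t ∈ s.powerset.erase ∅, x ^ t.card = (1 + x) ^ s.card - 1 := by
  have h := Finset.sum_pow_mul_eq_add_pow x (1 : ℝ) s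
  simp only [one_pow, mul_one] at h
  rw [← Finset.add_sum_erase s.powerset _ (Finset.empty_mem_powerset s), card_empty, pow_zero] at h
  rw [add_comm 1 x, ← h]
  ring

/-- generating function of the graphs with a given locally maximal colouring -/
theorem sum_LM_le {n : ℕ} (f : Fin n → Fin 3) {x : ℝ} (hx : 0 ≤ x) (hx1 : x ≤ 1) :
    ∑ G ∈ univ.filter (fun G : SimpleGraph (Fin n) => LM f G), x ^ G.edgeFinset.card ≤
      ∏ t ∈ tasks f, ((1 + x) ^ (cls f t.2).card - 1) := by
  have h1 : ∏ t ∈ tasks f, ((1 + x) ^ (cls f t.2).card - 1) =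
      ∏ t ∈ tasks f, ∑ s ∈ (cls f t.2).powerset.erase ∅, x ^ s.card :=
    prod_congr rfl fun t _ => (sum_nonempty_pow _ _).symm
  rw [h1, prod_sum]
  have h2 : ∀ G ∈ univ.filter (fun G : SimpleGraph (Fin n) => LM f G),
      x ^ G.edgeFinset.card ≤ ∏ t ∈ (tasks f).attach, x ^ (nb f G t.1).card := by
    intro G _
    rw [prod_pow_eq_pow_sum, sum_attach (tasks f) (fun t => (nb f G t).card)]
    exact pow_le_pow_of_le_one hx hx1 (sum_nb_le f G)
  refine (sum_le_sum h2).trans ?_
  have h3 : ∑ G ∈ univ.filter (fun G : SimpleGraph (Fin n) => LM f G),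
      ∏ t ∈ (tasks f).attach, x ^ (nb f G t.1).card =
      ∑ p ∈ (univ.filter (fun G : SimpleGraph (Fin n) => LM f G)).image
        (fun G => fun (t : Fin n × Fin 3) (_ : t ∈ tasks f) => nb f G t),
        ∏ t ∈ (tasks f).attach, x ^ (p t.1 t.2).card := by
    rw [sum_image]
    intro G hG H hH he
    simp only [coe_filter, mem_univ, true_and, Set.mem_ofPred_eq] at hG hH
    apply nb_inj f hG.1 hH.1
    intro t ht
    exact congrFun (congrFun he t) ht
  rw [h3]
  apply sum_le_sum_of_subset_of_nonneg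
  · intro p hp
    rw [mem_image] at hp
    obtain ⟨G, hG, rfl⟩ := hp
    rw [mem_filter] at hG
    rw [mem_pi]
    intro t ht
    rw [mem_erase, mem_powerset]
    refine ⟨(hG.2.2 t ht).ne_empty, ?_⟩
    intro w hw
    rw [nb, mem_filter] at hw
    rw [cls, mem_filter]
    exact ⟨mem_univ _, hw.2.1⟩
  · intro p _ _
    exact prod_nonneg fun t _ => pow_nonneg hx _

/-- generating function of the 3-colourable graphs -/
theorem sum_colorable_le (n : ℕ) {x : ℝ} (hx : 0 ≤ x) (hx1 : x ≤ 1) :
    ∑ G ∈ univ.filter (fun G : SimpleGraph (Fin n) => G.Colorable 3), x ^ G.edgeFinset.card ≤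
      ∑ f : Fin n → Fin 3, ∏ t ∈ tasks f, ((1 + x) ^ (cls f t.2).card - 1) := by
  calc ∑ G ∈ univ.filter (fun G : SimpleGraph (Fin n) => G.Colorable 3), x ^ G.edgeFinset.card
      ≤ ∑ G ∈ univ.filter (fun G : SimpleGraph (Fin n) => G.Colorable 3),
          ∑ f ∈ univ.filter (fun f : Fin n → Fin 3 => LM f G), x ^ G.edgeFinset.card := by
        apply sum_le_sum
        intro G hG
        rw [mem_filter] at hG
        obtain ⟨f, hf⟩ := exists_LM G hG.2
        exact single_le_sum (f := fun _ : Fin n → Fin 3 => x ^ G.edgeFinset.card)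
          (fun _ _ => pow_nonneg hx _) (by rw [mem_filter]; exact ⟨mem_univ f, hf⟩)
    _ ≤ ∑ G : SimpleGraph (Fin n),
          ∑ f ∈ univ.filter (fun f : Fin n → Fin 3 => LM f G), x ^ G.edgeFinset.card :=
        sum_le_sum_of_subset_of_nonneg (filter_subset _ _)
          (fun _ _ _ => sum_nonneg fun _ _ => pow_nonneg hx _)
    _ = ∑ f : Fin n → Fin 3, ∑ G ∈ univ.filter (fun G : SimpleGraph (Fin n) => LM f G),
          x ^ G.edgeFinset.card := by
        simp only [sum_filter]
        exact sum_comm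
    _ ≤ _ := sum_le_sum fun f _ => sum_LM_le f hx hx1

/-- the product over the tasks in terms of the sizes of the classes -/
theorem prod_tasks {n : ℕ} (f : Fin n → Fin 3) (g : Fin 3 → ℝ) :
    ∏ t ∈ tasks f, g t.2 = (g 1 * g 2) ^ (cls f 0).card * g 2 ^ (cls f 1).card := by
  have h1 : ∏ t ∈ tasks f, g t.2 = ∏ v : Fin n, ∏ j ∈ univ.filter (fun j => f v < j), g j := by
    rw [tasks, prod_filter, ← univ_product_univ, prod_product]
    refine prod_congr rfl fun v _ => ?_
    rw [prod_filter]
  have h2 : ∀ v : Fin n, ∏ j ∈ univ.filter (fun j => f v < j), g j =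
      (if f v = 0 then g 1 * g 2 else 1) * (if f v = 1 then g 2 else 1) := by
    intro v
    have : ∀ a : Fin 3, ∏ j ∈ univ.filter (fun j => a < j), g j =
        (if a = 0 then g 1 * g 2 else 1) * (if a = 1 then g 2 else 1) := by
      intro a
      rw [prod_filter, Fin.prod_univ_three]
      fin_cases a <;> simp
    exact this (f v)
  rw [h1, prod_congr rfl fun v _ => h2 v, prod_mul_distrib, prod_ite, prod_ite]
  simp only [prod_const, one_pow, mul_one]
  rfl

end Pool.Agent.Hhelper85.TC
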