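import Pool.Agent.Hhelper85.TC.Bound

/-!
# The random graph with mean degree 5.03 is not 3-colourable
-/

set_option autoImplicit false

namespace Pool.Agent.Hhelper85.TC

open Finset

attribute [local instance] Classical.propDecidable

/-- the exponents of the weights of the colours -/
noncomputable def be (j : Fin 3) : ℝ :=
  if j = 0 then 11921 / 10000 else if j = 1 then 10919 / 10000 else 10195 / 10000

theorem card_cls {n : ℕ} (f : Fin n → Fin 3) :
    (cls f 0).card + (cls f 1).card + (cls f 2).card = n := by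
  have h := Finset.card_eq_sum_card_fiberwise (f := f) (s := univ) (t := univ)
    (fun x _ => mem_univ _)
  rw [card_univ, Fintype.card_fin, Fin.sum_univ_three] at h
  exact h.symm

theorem prod_be {n : ℕ} (f : Fin n → Fin 3) :
    ∏ v, Real.exp (-be (f v)) = Real.exp (-((cls f 0).card * (11921 / 10000) +
      (cls f 1).card * (10919 / 10000) + (cls f 2).card * (10195 / 10000) : ℝ)) := by
  rw [← Real.exp_sum, sum_neg_distrib]
  congr 2
  have h1 : ∀ v, be (f v) = (if f v = 0 then (11921 / 10000 : ℝ) else 0) +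
      (if f v = 1 then (10919 / 10000 : ℝ) else 0) + (if f v = 2 then (10195 / 10000 : ℝ) else 0) := by
    intro v
    have : ∀ j : Fin 3, be j = (if j = 0 then (11921 / 10000 : ℝ) else 0) +
      (if j = 1 then (10919 / 10000 : ℝ) else 0) + (if j = 2 then (10195 / 10000 : ℝ) else 0) := by
      intro j
      unfold be
      fin_cases j <;> simp
    exact this (f v)
  rw [sum_congr rfl fun v _ => h1 v, sum_add_distrib, sum_add_distrib]
  simp only [sum_ite, sum_const_zero, add_zero, sum_const, nsmul_eq_mul]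
  rfl

theorem sum_prod_be (n : ℕ) : ∑ f : Fin n → Fin 3, ∏ v, Real.exp (-be (f v)) ≤ 1 := by
  have h := (Finset.prod_univ_sum (fun _ : Fin n => (univ : Finset (Fin 3)))
    (fun _ j => Real.exp (-be j))).symm
  rw [Fintype.piFinset_univ] at h
  rw [h, prod_const]
  apply pow_le_one₀ (sum_nonneg fun _ _ => (Real.exp_pos _).le)
  rw [Fin.sum_univ_three]
  have := gibbs_le
  simpa [be] using this

theorem term_le {n : ℕ} (hn : 0 < n) (f : Fin n → Fin 3) :
    ∏ t ∈ tasks f, ((1 + 7 / (n : ℝ)) ^ (cls f t.2).card - 1) ≤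
      Real.exp (33401 / 10000 * n) * ∏ v, Real.exp (-be (f v)) := by
  have hn' : (0 : ℝ) < n := by exact_mod_cast hn
  rw [prod_tasks f (fun j => (1 + 7 / (n : ℝ)) ^ (cls f j).card - 1), prod_be, ← Real.exp_add]
  have hpos : ∀ k : ℕ, 0 ≤ (1 + 7 / (n : ℝ)) ^ k - 1 := by
    intro k
    have : (1 : ℝ) ≤ (1 + 7 / (n : ℝ)) ^ k := one_le_pow₀ (by
      have : 0 ≤ 7 / (n : ℝ) := by positivity
      linarith)
    linarith
  have h1 := pow_sub_one_le (k := (cls f 1).card) hn (by norm_num) (by norm_num) w1_le v1_le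
  have h2 := pow_sub_one_le (k := (cls f 2).card) hn (by norm_num) (by norm_num) w2_le v2_le
  set E1 : ℝ := 7 * ((cls f 1).card / n : ℝ) - 1002 / 10000 +
    954 / 10000 * (7 * ((cls f 1).card / n : ℝ) - 23496 / 10000) / (1 - 954 / 10000) with hE1
  set E2 : ℝ := 7 * ((cls f 2).card / n : ℝ) - 8338 / 100000 +
    8 / 100 * (7 * ((cls f 2).card / n : ℝ) - 25257 / 10000) / (1 - 8 / 100) with hE2
  have h3 : ((1 + 7 / (n : ℝ)) ^ (cls f 1).card - 1) * ((1 + 7 / (n : ℝ)) ^ (cls f 2).card - 1) ≤
      Real.exp (E1 + E2) := by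
    rw [Real.exp_add]
    exact mul_le_mul h1 h2 (hpos _) (Real.exp_pos _).le
  have h4 := pow_le_pow_left₀ (mul_nonneg (hpos _) (hpos _)) h3 (cls f 0).card
  have h5 := pow_le_pow_left₀ (hpos _) h2 (cls f 1).card
  have h6 := mul_le_mul h4 h5 (pow_nonneg (hpos _) _) (pow_nonneg (Real.exp_pos _).le _)
  refine h6.trans ?_
  rw [← Real.exp_nat_mul, ← Real.exp_nat_mul, ← Real.exp_add]
  apply Real.exp_le_exp.2
  have hs : ((cls f 0).card / n : ℝ) + ((cls f 1).card / n : ℝ) + ((cls f 2).card / n : ℝ) = 1 := by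
    rw [← add_div, ← add_div, div_eq_one_iff_eq hn'.ne']
    exact_mod_cast card_cls f
  have hq := quad_le _ _ _ hs
  rw [← hE1, ← hE2] at hq
  have hc : ∀ a : ℝ, a = n * (a / n) := fun a => by field_simp
  have e0 : ((cls f 0).card : ℝ) = n * ((cls f 0).card / n : ℝ) := hc _
  have e1 : ((cls f 1).card : ℝ) = n * ((cls f 1).card / n : ℝ) := hc _
  have e2 : ((cls f 2).card : ℝ) = n * ((cls f 2).card / n : ℝ) := hc _
  set a0 : ℝ := ((cls f 0).card / n : ℝ)
  set a1 : ℝ := ((cls f 1).card / n : ℝ)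
  set a2 : ℝ := ((cls f 2).card / n : ℝ)
  rw [e0, e1, e2]
  nlinarith [mul_le_mul_of_nonneg_left hq hn'.le]

/-- the generating function of the 3-colourable graphs is at most `exp (3.3401 n)` at `7 / n` -/
theorem gf_le {n : ℕ} (hn : 7 ≤ n) :
    ∑ G ∈ univ.filter (fun G : SimpleGraph (Fin n) => G.Colorable 3),
      (7 / (n : ℝ)) ^ G.edgeFinset.card ≤ Real.exp (33401 / 10000 * n) := by
  have hn' : (0 : ℝ) < n := by exact_mod_cast (by omega : 0 < n)
  have h7 : (7 : ℝ) ≤ n := by exact_mod_cast hn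
  refine (sum_colorable_le n (x := 7 / (n : ℝ)) (by positivity)
    ((div_le_one hn').2 h7)).trans ?_
  calc _ ≤ ∑ f : Fin n → Fin 3, Real.exp (33401 / 10000 * n) * ∏ v, Real.exp (-be (f v)) :=
        sum_le_sum fun f _ => term_le (by omega) f
    _ = Real.exp (33401 / 10000 * n) * ∑ f : Fin n → Fin 3, ∏ v, Real.exp (-be (f v)) := by
        rw [mul_sum]
    _ ≤ Real.exp (33401 / 10000 * n) * 1 :=
        mul_le_mul_of_nonneg_left (sum_prod_be n) (Real.exp_pos _).le
    _ = _ := mul_one _

/-- the weight of an event in `G(n,p)` -/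
noncomputable def PG (n : ℕ) (p : ℝ) (A : SimpleGraph (Fin n) → Prop) : ℝ :=
  ∑ G ∈ univ.filter A, p ^ G.edgeFinset.card * (1 - p) ^ (n.choose 2 - G.edgeFinset.card)

theorem edge_le {n : ℕ} (G : SimpleGraph (Fin n)) : G.edgeFinset.card ≤ n.choose 2 := by
  have := G.card_edgeFinset_le_card_choose_two
  simpa using this

theorem sum_all (n : ℕ) (a b : ℝ) :
    ∑ G : SimpleGraph (Fin n), a ^ G.edgeFinset.card * b ^ (n.choose 2 - G.edgeFinset.card) =
      (a + b) ^ (n.choose 2) := by
  have hN : (⊤ : SimpleGraph (Fin n)).edgeFinset.card = n.choose 2 := by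
    have := SimpleGraph.card_edgeFinset_top_eq_card_choose_two (V := Fin n)
    simpa using this
  rw [← hN, ← Finset.sum_pow_mul_eq_add_pow]
  refine sum_bij (fun G _ => G.edgeFinset) ?_ ?_ ?_ ?_
  · intro G _
    rw [mem_powerset]
    exact SimpleGraph.edgeFinset_mono le_top
  · intro G _ H _ h
    exact SimpleGraph.edgeFinset_inj.1 h
  · intro S hS
    rw [mem_powerset] at hS
    refine ⟨SimpleGraph.fromEdgeSet (S : Set (Sym2 (Fin n))), mem_univ _, ?_⟩
    ext e
    refine Iff.trans (@Set.mem_toFinset _ _ (_) e) ?_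
    rw [SimpleGraph.edgeSet_fromEdgeSet]
    simp only [Set.mem_sdiff, mem_coe]
    constructor
    · exact fun h => h.1
    · intro h
      refine ⟨h, ?_⟩
      have := hS h
      rw [SimpleGraph.mem_edgeFinset] at this
      exact SimpleGraph.not_isDiag_of_mem_edgeSet _ this
  · intro G _
    rfl

theorem log_ratio : (3304 / 10000 : ℝ) ≤ Real.log (700 / 503) := by
  rw [Real.le_log_iff_exp_le (by norm_num)]
  have h := Real.exp_bound' (x := (3304 / 10000 : ℝ)) (by norm_num) (by norm_num) (n := 7)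
    (by norm_num)
  refine h.trans ?_
  norm_num [Finset.sum_range_succ, Nat.factorial]

/-- first part: graphs with many edges -/
theorem part_one {n : ℕ} (hn : 20 ≤ n) :
    ∑ G ∈ univ.filter (fun G : SimpleGraph (Fin n) => G.Colorable 3),
      (503 / 100 / (n : ℝ)) ^ G.edgeFinset.card *
        (1 - 503 / 100 / (n : ℝ)) ^ (n.choose 2 - G.edgeFinset.card) *
        Real.exp (Real.log (700 / 503 * (1 - 503 / 100 / (n : ℝ))) *
          (G.edgeFinset.card - 251 / 100 * n)) ≤ Real.exp (16 - n / 250) := by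
  have h20 : (20 : ℝ) ≤ n := by exact_mod_cast hn
  have hn' : (0 : ℝ) < n := by linarith
  set p : ℝ := 503 / 100 / (n : ℝ) with hp
  have hp0 : 0 < p := by positivity
  have hp1 : p ≤ 503 / 2000 := by
    rw [hp, div_le_iff₀ hn']
    linarith
  have h1p : 0 < 1 - p := by linarith
  set r : ℝ := 700 / 503 * (1 - p) with hr
  have hr0 : 0 < r := by positivity
  have hpr : p * (700 / 503) = 7 / n := by
    rw [hp]
    field_simp
    norm_num
  have hterm : ∀ G : SimpleGraph (Fin n), p ^ G.edgeFinset.card *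
        (1 - p) ^ (n.choose 2 - G.edgeFinset.card) *
        Real.exp (Real.log r * (G.edgeFinset.card - 251 / 100 * n)) =
      ((1 - p) ^ (n.choose 2) * Real.exp (-(Real.log r * (251 / 100 * n)))) *
        (7 / (n : ℝ)) ^ G.edgeFinset.card := by
    intro G
    have e1 : Real.exp (Real.log r * (G.edgeFinset.card - 251 / 100 * n)) =
        r ^ G.edgeFinset.card * Real.exp (-(Real.log r * (251 / 100 * n))) := by
      rw [mul_sub, sub_eq_add_neg, Real.exp_add]
      congr 1
      rw [mul_comm, Real.exp_nat_mul, Real.exp_log hr0]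
    have e2 : (1 - p) ^ (n.choose 2) = (1 - p) ^ (n.choose 2 - G.edgeFinset.card) *
        (1 - p) ^ G.edgeFinset.card := by
      rw [← pow_add]
      congr 1
      have := edge_le G
      omega
    have e3 : (7 / (n : ℝ)) ^ G.edgeFinset.card * (1 - p) ^ G.edgeFinset.card =
        p ^ G.edgeFinset.card * r ^ G.edgeFinset.card := by
      rw [← mul_pow, ← mul_pow, ← hpr, hr, mul_assoc]
    rw [e1, e2]
    linear_combination (-((1 - p) ^ (n.choose 2 - G.edgeFinset.card) *
      Real.exp (-(Real.log r * (251 / 100 * n))))) * e3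
  rw [sum_congr rfl fun G _ => hterm G, ← mul_sum]
  have h7 := gf_le (n := n) (by omega)
  refine (mul_le_mul_of_nonneg_left h7 (by positivity)).trans ?_
  have e3 : (1 - p) ^ (n.choose 2) = Real.exp (n.choose 2 * Real.log (1 - p)) := by
    rw [Real.exp_nat_mul, Real.exp_log h1p]
  rw [e3, ← Real.exp_add, ← Real.exp_add]
  apply Real.exp_le_exp.2
  have hlr : Real.log r = Real.log (700 / 503) + Real.log (1 - p) := by
    rw [hr, Real.log_mul (by norm_num) h1p.ne']
  have hl : Real.log (1 - p) ≤ -p := by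
    have := Real.log_le_sub_one_of_pos h1p
    linarith
  have hc : ((n.choose 2 : ℕ) : ℝ) = n * (n - 1) / 2 := by
    rw [Nat.cast_choose_two]
  have hlog := log_ratio
  rw [hlr, hc]
  have hpn : p * n = 503 / 100 := by
    rw [hp]; field_simp
  have hpos : 0 ≤ (n : ℝ) * (n - 1) / 2 - 251 / 100 * n := by nlinarith
  have h8 := mul_le_mul_of_nonneg_left hl hpos
  have h9 : ((n : ℝ) * (n - 1) / 2 - 251 / 100 * n) * (-p) =
      -(503 / 200) * (n - 1) + 251 / 100 * (503 / 100) := by
    have : ((n : ℝ) * (n - 1) / 2 - 251 / 100 * n) * (-p) =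
      -(p * n) * (n - 1) / 2 + 251 / 100 * (p * n) := by ring
    rw [this, hpn]
    ring
  rw [h9] at h8
  have h10 := mul_le_mul_of_nonneg_left hlog (show (0 : ℝ) ≤ 251 / 100 * n by positivity)
  nlinarith [h8, h10]

/-- second part: graphs with few edges -/
theorem part_two {n : ℕ} (hn : 20 ≤ n) :
    ∑ G : SimpleGraph (Fin n),
      (503 / 100 / (n : ℝ)) ^ G.edgeFinset.card *
        (1 - 503 / 100 / (n : ℝ)) ^ (n.choose 2 - G.edgeFinset.card) *
        Real.exp (-(1 / 500) * (G.edgeFinset.card - 251 / 100 * n)) ≤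
      Real.exp (1 - 49 / 10000000 * n) := by
  have h20 : (20 : ℝ) ≤ n := by exact_mod_cast hn
  have hn' : (0 : ℝ) < n := by linarith
  set p : ℝ := 503 / 100 / (n : ℝ) with hp
  have hp0 : 0 < p := by positivity
  have hp1 : p ≤ 503 / 2000 := by
    rw [hp, div_le_iff₀ hn']
    linarith
  have h1p : 0 < 1 - p := by linarith
  have hterm : ∀ G : SimpleGraph (Fin n), p ^ G.edgeFinset.card *
        (1 - p) ^ (n.choose 2 - G.edgeFinset.card) *
        Real.exp (-(1 / 500) * (G.edgeFinset.card - 251 / 100 * n)) =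
      Real.exp (1 / 500 * (251 / 100 * n)) * ((p * Real.exp (-(1 / 500))) ^ G.edgeFinset.card *
        (1 - p) ^ (n.choose 2 - G.edgeFinset.card)) := by
    intro G
    have e1 : Real.exp (-(1 / 500) * (G.edgeFinset.card - 251 / 100 * n)) =
        Real.exp (-(1 / 500)) ^ G.edgeFinset.card * Real.exp (1 / 500 * (251 / 100 * n)) := by
      rw [← Real.exp_nat_mul, ← Real.exp_add]
      congr 1
      ring
    rw [e1, mul_pow]
    ring
  rw [sum_congr rfl fun G _ => hterm G, ← mul_sum, sum_all]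
  have h1 : p * Real.exp (-(1 / 500)) + (1 - p) ≤
      Real.exp (-(p * (1 / 500 - 1 / 500000))) := by
    have h2 : Real.exp (-(1 / 500)) ≤ (1 : ℝ) - 1 / 500 + 1 / 500000 := by
      rw [Real.exp_neg, inv_le_comm₀ (Real.exp_pos _) (by norm_num)]
      have := exp_ge (1 / 500) (by norm_num) 3
      refine le_trans ?_ this
      norm_num [Finset.sum_range_succ, Nat.factorial]
    have h3 := Real.add_one_le_exp (-(p * (1 / 500 - 1 / 500000)))
    nlinarith [mul_le_mul_of_nonneg_left h2 hp0.le]
  have h0 : 0 ≤ p * Real.exp (-(1 / 500)) + (1 - p) := by positivity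
  have h4 := pow_le_pow_left₀ h0 h1 (n.choose 2)
  refine (mul_le_mul_of_nonneg_left h4 (Real.exp_pos _).le).trans ?_
  rw [← Real.exp_nat_mul, ← Real.exp_add]
  apply Real.exp_le_exp.2
  have hc : ((n.choose 2 : ℕ) : ℝ) = n * (n - 1) / 2 := by
    rw [Nat.cast_choose_two]
  have hpn : p * n = 503 / 100 := by
    rw [hp]; field_simp
  rw [hc]
  have h5 : (n : ℝ) * (n - 1) / 2 * -(p * (1 / 500 - 1 / 500000)) =
      -((p * n) * (n - 1) / 2 * (1 / 500 - 1 / 500000)) := by ring
  rw [h5, hpn]
  nlinarith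

/-- The random graph `G(n, 5.03 / n)` is 3-colourable with exponentially small probability. -/
theorem PG_colorable_le {n : ℕ} (hn : 20 ≤ n) :
    PG n (503 / 100 / (n : ℝ)) (fun G => G.Colorable 3) ≤
      Real.exp (16 - n / 250) + Real.exp (1 - 49 / 10000000 * n) := by
  have h20 : (20 : ℝ) ≤ n := by exact_mod_cast hn
  have hn' : (0 : ℝ) < n := by linarith
  refine le_trans ?_ (add_le_add (part_one hn) (part_two hn))
  unfold PG
  set p : ℝ := 503 / 100 / (n : ℝ) with hp
  have hp0 : 0 < p := by positivity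
  have hp1 : p ≤ 503 / 2000 := by
    rw [hp, div_le_iff₀ hn']
    linarith
  have h1p : 0 < 1 - p := by linarith
  have hr1 : 0 ≤ Real.log (700 / 503 * (1 - p)) := by
    apply Real.log_nonneg
    linarith
  have hw : ∀ G : SimpleGraph (Fin n), 0 ≤ p ^ G.edgeFinset.card *
      (1 - p) ^ (n.choose 2 - G.edgeFinset.card) := fun G => by positivity
  have h1 : ∑ G ∈ univ.filter (fun G : SimpleGraph (Fin n) => G.Colorable 3),
      p ^ G.edgeFinset.card * (1 - p) ^ (n.choose 2 - G.edgeFinset.card) ≤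
      ∑ G ∈ univ.filter (fun G : SimpleGraph (Fin n) => G.Colorable 3),
        (p ^ G.edgeFinset.card * (1 - p) ^ (n.choose 2 - G.edgeFinset.card) *
          Real.exp (Real.log (700 / 503 * (1 - p)) * (G.edgeFinset.card - 251 / 100 * n)) +
        p ^ G.edgeFinset.card * (1 - p) ^ (n.choose 2 - G.edgeFinset.card) *
          Real.exp (-(1 / 500) * (G.edgeFinset.card - 251 / 100 * n))) := by
    apply sum_le_sum
    intro G _
    rw [← mul_add]
    apply le_mul_of_one_le_right (hw G)
    rcases le_total ((251 / 100 * n : ℝ)) (G.edgeFinset.card : ℝ) with h | h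
    · have : 1 ≤ Real.exp (Real.log (700 / 503 * (1 - p)) *
          (G.edgeFinset.card - 251 / 100 * n)) :=
        Real.one_le_exp (mul_nonneg hr1 (by linarith))
      have h2 := Real.exp_pos (-(1 / 500) * ((G.edgeFinset.card : ℝ) - 251 / 100 * n))
      linarith
    · have : 1 ≤ Real.exp (-(1 / 500) * ((G.edgeFinset.card : ℝ) - 251 / 100 * n)) :=
        Real.one_le_exp (by nlinarith)
      have h2 := Real.exp_pos (Real.log (700 / 503 * (1 - p)) *
          ((G.edgeFinset.card : ℝ) - 251 / 100 * n))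
      linarith
  refine h1.trans ?_
  rw [sum_add_distrib]
  refine add_le_add le_rfl ?_
  exact sum_le_sum_of_subset_of_nonneg (filter_subset _ _)
    (fun G _ _ => mul_nonneg (hw G) (Real.exp_pos _).le)

end Pool.Agent.Hhelper85.TC
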